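import Pool.Agent.helper41.HFE.Spec

set_option autoImplicit false

open Polynomial Module Pool.Agent.HFN

namespace Pool.Agent.HFE

noncomputable section

theorem NUM_cd {i j r a b : ℕ} (h : CD i j r a b) : 2 * (a : ℤ) ≤ i + 1 ∧ 2 * (b : ℤ) ≤ j + 1 ∧
    (b : ℤ) * (i + 2 - a) + a * (j + 2 - b) ≤ 2 * r := by
  obtain ⟨h1, h2, h3⟩ := h
  refine ⟨by exact_mod_cast h1, by exact_mod_cast h2, ?_⟩
  have e1 : ((i + 2 - a : ℕ) : ℤ) = (i : ℤ) + 2 - a := by omega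
  have e2 : ((j + 2 - b : ℕ) : ℤ) = (j : ℤ) + 2 - b := by omega
  have h4 : ((b * (i + 2 - a) + a * (j + 2 - b) : ℕ) : ℤ) ≤ ((2 * r : ℕ) : ℤ) := by exact_mod_cast h3
  rw [Nat.cast_add, Nat.cast_mul, Nat.cast_mul, Nat.cast_mul, e1, e2] at h4
  exact_mod_cast h4

theorem NUM_one {i j r a b : ℕ} (h : CD i j r a b) (hr : 6 * r < (i + 2) * (j + 2)) : 3 * a < i + 2 := by
  obtain ⟨h1, h2, h3⟩ := NUM_cd h
  by_contra hc
  have hc' : (i : ℤ) + 2 ≤ 3 * a := by exact_mod_cast (not_lt.1 hc)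
  have hr' : 6 * (r : ℤ) < ((i : ℤ) + 2) * (j + 2) := by exact_mod_cast hr
  have hb : (0 : ℤ) ≤ b := Int.natCast_nonneg b
  have hj : (0 : ℤ) ≤ j := Int.natCast_nonneg j
  have g1 : (0 : ℤ) ≤ b * ((i : ℤ) + 2 - 2 * a) := mul_nonneg hb (by linarith)
  have g2 : ((i : ℤ) + 2) * (j + 2) ≤ 3 * a * (j + 2) := mul_le_mul_of_nonneg_right hc' (by linarith)
  have g3 : (b : ℤ) * (i + 2 - a) + a * (j + 2 - b) = b * ((i : ℤ) + 2 - 2 * a) + a * (j + 2) := by ring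
  linarith

theorem NUM_two {i j r a b : ℕ} (h : CD i j r a b) (hi : 2 ≤ i) (_hj : 2 ≤ j) (hr : r + 1 ≤ i + j) : a ≤ 1 ∨ b ≤ 1 := by
  obtain ⟨h1, h2, h3⟩ := NUM_cd h
  by_contra hc
  rw [not_or] at hc
  have ha : (2 : ℤ) ≤ a := by exact_mod_cast (not_le.1 hc.1)
  have hb : (2 : ℤ) ≤ b := by exact_mod_cast (not_le.1 hc.2)
  have hi' : (2 : ℤ) ≤ i := by exact_mod_cast hi
  have hr' : (r : ℤ) + 1 ≤ i + j := by exact_mod_cast hr
  have g1 : (0 : ℤ) ≤ ((b : ℤ) - 2) * ((i : ℤ) - 2) := mul_nonneg (by linarith) (by linarith)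
  have g2 : (0 : ℤ) ≤ ((a : ℤ) - 2) * ((j : ℤ) + 2 - 2 * b) := mul_nonneg (by linarith) (by linarith)
  have g3 : (b : ℤ) * (i + 2 - a) + a * (j + 2 - b) =
    2 * i + 2 * j + ((b : ℤ) - 2) * ((i : ℤ) - 2) + ((a : ℤ) - 2) * ((j : ℤ) + 2 - 2 * b) := by ring
  linarith

theorem NUM_four {i j r : ℕ} (hi : 2 ≤ i) (hj : 2 ≤ j) (hr : r + 1 ≤ i + j) : 4 * r < (i + 2) * (j + 2) := by
  have hi' : (2 : ℤ) ≤ i := by exact_mod_cast hi
  have hj' : (2 : ℤ) ≤ j := by exact_mod_cast hj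
  have hr' : (r : ℤ) + 1 ≤ i + j := by exact_mod_cast hr
  have g1 : (0 : ℤ) ≤ ((i : ℤ) - 2) * ((j : ℤ) - 2) := mul_nonneg (by linarith) (by linarith)
  have g2 : 4 * (r : ℤ) < ((i : ℤ) + 2) * (j + 2) := by
    have g3 : ((i : ℤ) + 2) * (j + 2) = ((i : ℤ) - 2) * ((j : ℤ) - 2) + 4 * (i + j) := by ring
    linarith
  exact_mod_cast g2

theorem NUM : NUM_stmt := by
  refine ⟨?_, ?_⟩
  · intro i j r hr a b a' b' a'' b'' h h' h''
    have g1 := NUM_one h hr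
    have g2 := NUM_one h' hr
    have g3 := NUM_one h'' hr
    left
    omega
  · intro i j r hi hj hr
    refine ⟨NUM_four hi hj hr, fun a b h => NUM_two h hi hj hr, ?_⟩
    intro a b a' b' a'' b'' h h' h''
    have g1 := NUM_two h hi hj hr
    have g2 := NUM_two h' hi hj hr
    have g3 := NUM_two h'' hi hj hr
    obtain ⟨k1, k2, -⟩ := h
    obtain ⟨k1', k2', -⟩ := h'
    obtain ⟨k1'', k2'', -⟩ := h''
    omega

end

end Pool.Agent.HFE
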